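import Pool.Agent.Q64.LC.Sub

/-!
# The conditions of the conjecture and the holomorphic curves with gaps

Let `X` be a projective algebraic set which is cut out by the forms of degree at most `D` in `p`,
and let `Q` be a form of degree at most `D`. Every entire curve in `U = X - {Q = 0}` is given by
entire functions `f` such that `Q (f)` is constant. Let `Δ` be the closed subset of `U` given by the
forms in `p'`.

The following conditions are equivalent: all nonconstant entire curves `f = ∑ z ^ i a i` in `U` with
infinitely many gaps `(α, β)`, `D α < β`, lie in `Δ` (a part of condition 2); the same for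
holomorphic curves on discs; all nonconstant morphisms from the affine line to `U` map to `Δ`; for
all points `x` of `U` outside `Δ` only finitely many morphisms from the affine line to `U` map the
origin to `x` (a part of condition 3); the degrees of the morphisms from the affine line to `U` which
do not map to `Δ` are bounded (a part of condition 5).

If `U` is irreducible and has a nonzero logarithmic pluricanonical form (condition 4 implies this),
then all holomorphic curves in `U` with infinitely many isolated blocks of exponents lie in one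
proper closed subset.
-/

set_option autoImplicit false

namespace Pool.Agent.Results.MP_c69980_ag.GapSeries

open MvPolynomial Pool.Agent.TH143.GT Pool.Agent.W602.GT Pool.Agent.W603.GR Pool.Agent.Q64.LC

theorem result {n q D : ℕ} {p : Ideal (MvPolynomial (Fin (n + 1)) ℂ)}
    {Q : MvPolynomial (Fin (n + 1)) ℂ} (hQ : Q.IsHomogeneous q) (hD : 1 ≤ D) (hqD : q ≤ D)
    (hcut : CutBy D p) :
    (∀ p' : Ideal (MvPolynomial (Fin (n + 1)) ℂ), List.TFAE [
      EntireIn D p Q p', DiscsIn D p Q p', MorIn p Q p', PointedFinite p Q p',
      DegreeBounded p Q p']) ∧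
    (∀ (w : ℕ) (K : Type) [Field K] [Algebra ℂ K] (y : Fin (n + 1) → K), FunField p Q K w y →
      (∃ N : ℕ, 0 < N ∧ ∃ ω : (Fin w → Derivation ℂ K K) → K,
        LogSec ℂ K w N (OffQ Q q y) ω ∧ ω ≠ 0) →
      ∃ G : MvPolynomial (Fin (n + 1)) ℂ, IsForm G ∧ G ∉ p ∧
        ∀ (r : ℝ) (a : ℕ → Fin (n + 1) → ℂ) (f : ℂ → Fin (n + 1) → ℂ), Curve p Q r a f →
          Isolated D a → ∀ z : ℂ, ‖z‖ < r → eval (f z) G = 0) := by
  refine ⟨fun p' => ?_, fun w K _ _ y hy h => ?_⟩
  · tfae_have 1 → 3 := morIn_of_entireIn
    tfae_have 3 → 2 := discsIn_of_morIn hD hQ hqD hcut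
    tfae_have 2 → 1 := entireIn_of_discsIn
    tfae_have 3 → 4 := pointed_of_morIn
    tfae_have 4 → 3 := morIn_of_pointed
    tfae_have 3 → 5 := bounded_of_morIn
    tfae_have 5 → 3 := morIn_of_bounded
    tfae_finish
  · obtain ⟨N, hN, ω, hω, hω0⟩ := h
    have hG : ∃ G, IsForm G ∧ G ∉ p ∧ ∀ x v, Line p Q x v → ∀ t : ℂ, eval (x + t • v) G = 0 := by
      by_contra hno
      exact hω0 ((lines_main hy hQ hno).2 N hN ω hω)
    obtain ⟨G, hG1, hG2, hG3⟩ := hG
    exact ⟨G, hG1, hG2, fun r a f hf hb z hz => vanish hD hQ hqD hcut hG3 hf hb hz⟩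

end Pool.Agent.Results.MP_c69980_ag.GapSeries
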