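import Pool.Agent.Q72.SH.RigAlg

/-!
MP_c69980_ag, Q1: the conditions (3) and (5) with a given `Δ`, for the multiplicative group, are
equivalent to the rigidity of all the entire curves outside of `Δ`.
-/

set_option autoImplicit false

namespace Pool.Agent.Results.MP_c69980_ag.RigidEntireCurves

open MvPolynomial
open Pool.Agent.W602.GT Pool.Agent.TH143.GT Pool.Agent.Q72.SH
open Pool.Agent.W603.BPR (EntireCurve)

/-- For all `n` and `d` there is a number `M` such that the following is true for all
quasi-projective algebraic sets `U` in `P^n` given by a set `E` of forms of degrees at most `d` and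
by `Q ≠ 0` for a form `Q` of degree `q ≤ d`, and for all closed subsets `Δ`, given by a set `J` of
forms.

(1) The following are equivalent: all entire curves in `U` that do not lie in `Δ` are rigid; all
nonconstant morphisms from the multiplicative group to `U` have their image in `Δ`; for all points
`x` outside of `Δ` only finitely many morphisms from the multiplicative group to `U` map the unit
element to `x`; the degrees of the morphisms from the multiplicative group to `U`, whose image does
not lie in `Δ`, are bounded.

(2) If these conditions hold then among any `M + 1` entire curves in `U`, not in `Δ`, that have the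
same intersections, with multiplicities, with the coordinate hyperplanes, there are two that differ
by an invertible diagonal matrix of constants. (3) If they hold and `q > 0` then, for each entire
curve `f` in `U` that does not lie in `Δ`, all translations that leave the intersections of `f` with
the coordinate hyperplanes invariant are translations by rational multiples of one complex
number. -/
theorem result (n d : ℕ) : ∃ M : ℕ, ∀ E : Set (MvPolynomial (Fin (n + 1)) ℂ),
    (∀ F ∈ E, ∃ e ≤ d, F.IsHomogeneous e) →
    ∀ (Q : MvPolynomial (Fin (n + 1)) ℂ) (q : ℕ), q ≤ d → Q.IsHomogeneous q →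
    ∀ J : Set (MvPolynomial (Fin (n + 1)) ℂ), (∀ H ∈ J, IsForm H) →
    List.TFAE [∀ f, EntireCurve (Ideal.span E) Q f → (∃ z, ¬ InD J (f z)) → Rigid E Q f,
      GmIn E Q J, GmPointed E Q J, GmBounded E Q J] ∧
    (GmIn E Q J → ∀ g : Fin (M + 1) → ℂ → Fin (n + 1) → ℂ,
      (∀ s, EntireCurve (Ideal.span E) Q (g s)) → (∀ s, ∃ z, ¬ InD J (g s z)) →
      (∀ s t, SameSections (g s) (g t)) → ∃ s t, s ≠ t ∧ DiagEq (g s) (g t)) ∧
    (GmIn E Q J → 0 < q → ∀ f, EntireCurve (Ideal.span E) Q f → (∃ z, ¬ InD J (f z)) →
      RatPeriods f) := by
  obtain ⟨M, hM⟩ := diag_or_weighted n d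
  refine ⟨M, fun E hE Q q hq hQ J hJ => ⟨rig_tfae hE hq hQ hJ, fun h g hg hoff hs => ?_,
    fun h hq0 f hf hoff => ?_⟩⟩
  · rcases hM E hE Q q hq hQ g hg hs with h1 | ⟨s, h1⟩
    · exact h1
    · obtain ⟨z, hz⟩ := hoff s
      exact absurd (inD_of_gm hJ h (weighted_spGm hE hq hQ (hg s) h1 z)) hz
  · obtain ⟨-, M', hM'⟩ := rigid_of_gmIn hE hq hQ hJ h hf hoff
    exact periods hM' (EC.idl hf) (zd_idl f) fun ω₁ ω₂ h1 h2 =>
      affine_not_torus hf hQ hq0.ne' h1 h2

end Pool.Agent.Results.MP_c69980_ag.RigidEntireCurves
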