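import Pool.Agent.Q72.TR.App2

/-!
MP_c69980_ag, Q1: a second main theorem, with truncated counting functions, for all entire curves
outside of a closed subset of a quasi-projective variety, and monomial curves.
-/

set_option autoImplicit false

namespace Pool.Agent.Results.MP_c69980_ag.TruncatedInequality

open MvPolynomial
open Pool.Agent.TH143 Pool.Agent.TH143.GT Pool.Agent.W602.GT Pool.Agent.W603.BPR
  Pool.Agent.W603.GR Pool.Agent.Q72.TR
open Pool.Agent.Q72.SH (InD GmIn GmPointed GmBounded)

/-- For all `n` and `d` there are `ε > 0`, `B` and `m` such that the following is true for all sets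
`E` of forms of degrees at most `d` in `n + 1` variables, all forms `Q` of degree `q ≤ d` and all sets
`J` of forms. Let `X` be the projective set `E = 0`, `U` the quasi-projective set given by `E = 0`,
`Q ≠ 0`, and `Δ` the closed subset given by `J`.

(A) The following are equivalent: (1) all monomial curves in `U` of degree at most `B` lie in `Δ`;
(2) for all nonconstant entire curves `f` in `X` that lie neither in `Δ` nor in `Q = 0`, and all
systems of `n + 1` hyperplanes `ℓ i = 0` of `P^n` without common point, the inequality `ε T(r) ≤ N(r)`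
is true for all `r` outside of a set of finite measure, where `T` is the characteristic function of
`f` and `N` the counting function of the points that `f` maps to the hypersurface `Q = 0` or to one of
those hyperplanes which do not contain the curve, each point counted once; (3) for all such `f` and
`ℓ` one of the intersections of `f` with these hyperplanes or with `Q = 0` has a multiplicity less
than `m`.

(B) They are true if all nonconstant morphisms from the multiplicative group to `U` map to `Δ`, if for
all points `x` outside of `Δ` there are only finitely many morphisms from the multiplicative group to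
`U` which map `1` to `x`, or if the morphisms from the multiplicative group to `U` whose image does not
lie in `Δ` have bounded degrees.

(C) They are true if all subvarieties of `U` of positive dimension which do not lie in `Δ` are of log
general type.

(D) If `U` is a variety of log general type (`K` is the function field and `y` the generic point) then
they are true for some `Δ` which does not contain `U`. -/
theorem result (n d : ℕ) : ∃ (ε : ℝ) (B m : ℕ), 0 < ε ∧
    ∀ E : Set (MvPolynomial (Fin (n + 1)) ℂ), (∀ F ∈ E, ∃ e ≤ d, F.IsHomogeneous e) →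
    ∀ (Q : MvPolynomial (Fin (n + 1)) ℂ) (q : ℕ), q ≤ d → Q.IsHomogeneous q →
    (∀ J : Set (MvPolynomial (Fin (n + 1)) ℂ), (∀ H ∈ J, IsForm H) →
      List.TFAE [MonIn B E Q J,
        ∀ ℓ S, Inv ℓ S → ∀ f, Cur E Q f → (∃ z, ¬ InD J (f z)) → Trunc ε ℓ Q f,
        ∀ ℓ S, Inv ℓ S → ∀ f, Cur E Q f → (∃ z, ¬ InD J (f z)) → ¬ MultGe m ℓ Q f] ∧
      (GmIn E Q J ∨ GmPointed E Q J ∨ GmBounded E Q J → MonIn B E Q J) ∧
      ((∀ (K : Type) [Field K] [Algebra ℂ K] (w : ℕ) (y : Fin (n + 1) → K),
        SubVarP (Ideal.span E) Q K w y → 0 < w → (∃ H ∈ J, W602.GT.val y H ≠ 0) →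
        LogGeneralType ℂ K w (OffQ Q q y)) → MonIn B E Q J)) ∧
    ∀ (K : Type) [Field K] [Algebra ℂ K] (w : ℕ) (y : Fin (n + 1) → K),
      FunField (Ideal.span E) Q K w y → LogGeneralType ℂ K w (OffQ Q q y) →
      ∃ G : MvPolynomial (Fin (n + 1)) ℂ, IsForm G ∧ G ∉ Ideal.span E ∧ MonIn B E Q {G} := by
  obtain ⟨ε, B, m, hε, h⟩ := tfae_main n d
  refine ⟨ε, B, m, hε, fun E hE Q q hq hQ => ?_⟩
  have hE' : ∀ F ∈ E, IsForm F := fun F hF => by
    obtain ⟨e, -, he⟩ := hE F hF
    exact ⟨e, he⟩
  refine ⟨fun J hJ => ⟨h E hE Q q hq hQ J, fun hc => ?_, fun hc => ?_⟩, fun K _ _ w y hy hgt => ?_⟩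
  · refine monIn_of_gm ?_ B
    rcases hc with h1 | h1 | h1
    · exact h1
    · exact Pool.Agent.Q72.SH.gmIn_of_pointed h1
    · exact Pool.Agent.Q72.SH.gmIn_of_bounded h1
  · exact monIn_of_sub hE' hQ hJ (fun K _ _ w y a b c => Or.inl (hc K w y a b c)) B
  · obtain ⟨G, hG1, hG2, hG3⟩ := bd_form hy
      (fun r => Pool.Agent.TH143.DE.flat_gt hy hQ hgt r) rfl B
    refine ⟨G, hG1, hG2, ?_⟩
    intro S x k hM t ht
    obtain ⟨ℓ, hℓ⟩ := hM.inv
    obtain ⟨i, j, hi, hj, hij⟩ := hM.nc
    have hF : ∀ F ∈ E, (aeval (mon S x k) F : Polynomial ℂ) = 0 := by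
      intro F hF
      apply Polynomial.eq_zero_of_infinite_isRoot
      refine Set.Infinite.mono (s := {u : ℂ | u ≠ 0}) ?_
        (Set.finite_singleton (0 : ℂ)).infinite_compl
      intro u hu
      rw [Set.mem_ofPred_eq, Polynomial.IsRoot.def, eval_aeval_poly, mon_eval]
      exact hM.mem u hu F hF
    obtain ⟨c, l, hc, hcl⟩ := Pool.Agent.Q72.SH.eq_mono (P := aeval (mon S x k) Q) fun u hu => by
      rw [eval_aeval_poly, mon_eval]
      exact hM.off u hu
    have h1 := hG3 (mon S x k) (fun l => mon_deg S x hM.le l) hF ⟨c, l, hc, hcl⟩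
      (wr_mon hℓ.2 hi hj hij)
    intro H hH
    rw [Set.mem_singleton_iff.1 hH, ← mon_eval, ← eval_aeval_poly, h1, Polynomial.eval_zero]

end Pool.Agent.Results.MP_c69980_ag.TruncatedInequality
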